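import Pool.Agent.helper32.EX.SpecA

set_option autoImplicit false

namespace Pool.Agent.EX

theorem GAU (hAUT : AUT_stmt) : GAU_stmt := by
  intro n C _ F _ g hg
  unfold EG at hg
  induction hg using Subgroup.closure_induction with
  | mem x hx =>
    obtain ⟨α, t, hx⟩ := hx
    refine ⟨fun u v => ?_, fun u v => ?_⟩
    · rw [hx, hx, hx, (hAUT C F α t u v).1]
    · rw [hx, hx, (hAUT C F α t u v).2]
  | one => exact ⟨fun u v => rfl, fun u v => rfl⟩
  | mul x y _ _ hx hy =>
    refine ⟨fun u v => ?_, fun u v => ?_⟩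
    · rw [LinearEquiv.mul_apply, LinearEquiv.mul_apply, LinearEquiv.mul_apply, hy.1, hx.1]
    · rw [LinearEquiv.mul_apply, LinearEquiv.mul_apply, hx.2, hy.2]
  | inv x _ hx =>
    have h1 : ∀ v, x (x⁻¹ v) = v := fun v => x.apply_symm_apply v
    refine ⟨fun u v => ?_, fun u v => ?_⟩
    · apply x.injective
      rw [h1, hx.1, h1, h1]
    · rw [← hx.2, h1, h1]

end Pool.Agent.EX
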